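import Pool.Agent.H179R3.HF.Nearly

set_option autoImplicit false

/-!
# `1/2`-flow-pairs of general multigraphs from 4-flows with additional edges
-/

namespace Pool.Agent.TH399.HP2

open Finset Pool.Agent.H160R2.HF Pool.Agent.H179R3.HF

variable {V E T : Type} [Fintype V] [Fintype E] [Fintype T] [DecidableEq V] [DecidableEq E]
  [DecidableEq T]

/-- the multigraph `G` with the new edges `i : T` from `a i` to `b i` -/
def addEdges (G : OrGraph V E) (a b : T → V) : OrGraph V (E ⊕ T) where
  t := fun g => Sum.elim G.t a g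
  h := fun g => Sum.elim G.h b g

/-- the number of new edges with exactly one end in `X` -/
def crossing (a b : T → V) (X : Finset V) : ℕ :=
  (univ.filter (fun i => ¬ (a i ∈ X ↔ b i ∈ X))).card

omit [DecidableEq T] in
lemma cut_card_split (G : OrGraph V E) (F : Finset E) (X : Finset V) :
    (G.cut X).card = (G.cut X ∩ F).card + (G.cut X ∩ Fᶜ).card := by
  rw [← Finset.card_union_of_disjoint, ← Finset.inter_union_distrib_left,
    Finset.union_compl, Finset.inter_univ]
  exact Finset.disjoint_of_subset_left Finset.inter_subset_right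
    (Finset.disjoint_of_subset_right Finset.inter_subset_right disjoint_compl_right)

lemma cut_inter_card (G : OrGraph V E) (A : Finset E) (X : Finset V) :
    ((G.cut X ∩ A).card : ℤ) = ∑ e, if e ∈ G.cut X ∩ A then 1 else 0 := by
  simp only [Finset.sum_boole]
  congr 2
  ext e; simp

lemma net_par (G : OrGraph V E) (ψ : E → ℤ) (A : Finset E) (h1 : ∀ e ∈ A, ψ e = 1 ∨ ψ e = -1)
    (h0 : ∀ e ∉ A, ψ e = 0) (X : Finset V) :
    (2 : ℤ) ∣ (∑ v ∈ X, net G.t G.h ψ v) - (G.cut X ∩ A).card := by
  rw [net_sum, cut_inter_card, ← Finset.sum_sub_distrib]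
  apply Finset.dvd_sum
  intro e _
  by_cases he : e ∈ A
  · rcases h1 e he with h | h <;>
    by_cases a : G.t e ∈ X <;> by_cases b : G.h e ∈ X <;> simp [a, b, he, OrGraph.cut, h]
  · rw [h0 e he]
    simp [he]

/-- the main construction -/
theorem core (G : OrGraph V E) (a b : T → V) (F : Finset E) (hF : ∀ v, Even (G.deg F v))
    (κ : E ⊕ T → ℤ) (hκ1 : ∀ g, κ g = 1 ∨ κ g = -1 ∨ κ g = 0)
    (hκF : ∀ e, e ∉ F → κ (Sum.inl e) ≠ 0)
    (hκ2 : ∀ v, net (addEdges G a b).t (addEdges G a b).h κ v = 0)
    (hq : ∀ X : Finset V, (G.cut X ∩ F).card < 2 * crossing a b X →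
      5 * (G.cut X ∩ F).card < 2 * (G.cut X).card →
      5 * crossing a b X ≤ (G.cut X).card + 1) :
    ∃ φ₂ φ₄ : E → ℤ, G.IsHalfFlowPair φ₂ φ₄ ∧ ∀ e, φ₂ e ≠ 0 ↔ e ∈ F := by
  classical
  set ψ : E → ℤ := fun e => if e ∈ F then 0 else κ (Sum.inl e) with hψ
  have hψ1 : ∀ e ∈ Fᶜ, ψ e = 1 ∨ ψ e = -1 := by
    intro e he
    have he' : e ∉ F := by simpa using he
    rw [hψ]
    simp only [if_neg he']
    rcases hκ1 (Sum.inl e) with h | h | h
    · left; exact h
    · right; exact h
    · exact absurd h (hκF e he')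
  have hψ0 : ∀ e ∉ Fᶜ, ψ e = 0 := by
    intro e he
    have he' : e ∈ F := by simpa using he
    rw [hψ]
    simp only [if_pos he']
  -- bound for the boundary of `ψ`
  have hbd : ∀ X : Finset V, |∑ v ∈ X, net G.t G.h ψ v| ≤
      (G.cut X ∩ F).card + crossing a b X := by
    intro X
    have h1 : ∑ v ∈ X, net (addEdges G a b).t (addEdges G a b).h κ v = 0 :=
      Finset.sum_eq_zero fun v _ => hκ2 v
    rw [net_sum, Fintype.sum_sum_type] at h1
    have h2 : (∑ e : E, ((if (addEdges G a b).t (Sum.inl e) ∈ X then κ (Sum.inl e) else 0) -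
        (if (addEdges G a b).h (Sum.inl e) ∈ X then κ (Sum.inl e) else 0))) =
        ∑ v ∈ X, net G.t G.h ψ v +
          ∑ v ∈ X, net G.t G.h (fun e => if e ∈ F then κ (Sum.inl e) else 0) v := by
      rw [net_sum, net_sum, ← Finset.sum_add_distrib]
      refine Finset.sum_congr rfl fun e _ => ?_
      show (if G.t e ∈ X then κ (Sum.inl e) else 0) - (if G.h e ∈ X then κ (Sum.inl e) else 0) = _
      rw [hψ]
      by_cases he : e ∈ F
      · simp [he]
      · simp [he]
    have h3 : |∑ v ∈ X, net G.t G.h (fun e => if e ∈ F then κ (Sum.inl e) else 0) v| ≤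
        (G.cut X ∩ F).card := by
      refine G.abs_net_le _ F (fun e he => ?_) (fun e he => ?_) X
      · simp only [if_pos he]
        rcases hκ1 (Sum.inl e) with h | h | h <;> rw [h] <;> simp
      · simp only [if_neg he]
    have h4 : |∑ i : T, ((if (addEdges G a b).t (Sum.inr i) ∈ X then κ (Sum.inr i) else 0) -
        (if (addEdges G a b).h (Sum.inr i) ∈ X then κ (Sum.inr i) else 0))| ≤
        crossing a b X := by
      have h5 : (crossing a b X : ℤ) = ∑ i : T, if ¬ (a i ∈ X ↔ b i ∈ X) then 1 else 0 := by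
        unfold crossing
        simp only [Finset.sum_boole]
      rw [h5]
      refine (Finset.abs_sum_le_sum_abs _ _).trans (Finset.sum_le_sum fun i _ => ?_)
      show |(if a i ∈ X then κ (Sum.inr i) else 0) - (if b i ∈ X then κ (Sum.inr i) else 0)| ≤ _
      by_cases ha : a i ∈ X <;> by_cases hb : b i ∈ X <;>
        rcases hκ1 (Sum.inr i) with h | h | h <;> simp [ha, hb, h]
    rw [h2] at h1
    rw [abs_le] at h3 h4 ⊢
    constructor <;> linarith [h3.1, h3.2, h4.1, h4.2]
  obtain ⟨φ₂, h21, h22⟩ := eulerian G.t G.h F (fun v => hF v)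
  obtain ⟨φ₄, h41, h42⟩ := hoffman G.t G.h
    (fun e => if e ∈ F then -3 else if ψ e = 1 then 2 else -3)
    (fun e => if e ∈ F then 3 else if ψ e = 1 then 3 else -2)
    (fun _ => 0) (fun e => by split_ifs <;> simp) (by simp) (by
      intro X
      -- twice the Hoffman function
      have hff : 2 * ff G.t G.h (fun e => if e ∈ F then -3 else if ψ e = 1 then 2 else -3)
          (fun e => if e ∈ F then 3 else if ψ e = 1 then 3 else -2) (fun _ => 0) X =
          6 * (G.cut X ∩ F).card + (G.cut X ∩ Fᶜ).card -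
            5 * ∑ v ∈ X, net G.t G.h ψ v := by
        unfold ff
        rw [net_sum, cut_inter_card, cut_inter_card, Finset.mul_sum, Finset.mul_sum,
          ← Finset.sum_add_distrib, ← Finset.sum_sub_distrib]
        rw [Finset.sum_const_zero, zero_add, Finset.mul_sum]
        refine Finset.sum_congr rfl fun e _ => ?_
        unfold ce
        by_cases he : e ∈ F
        · have h0 : ψ e = 0 := hψ0 e (by simpa using he)
          by_cases a : G.t e ∈ X <;> by_cases b : G.h e ∈ X <;>
            simp [a, b, he, OrGraph.cut, h0]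
        · rcases hψ1 e (by simpa using he) with h | h <;>
          by_cases a : G.t e ∈ X <;> by_cases b : G.h e ∈ X <;>
            simp [a, b, he, OrGraph.cut, h]
      have hm := G.abs_net_le ψ Fᶜ (fun e he => by
        rcases hψ1 e he with h | h <;> rw [h] <;> simp) hψ0 X
      have hpar := net_par G ψ Fᶜ hψ1 hψ0 X
      have hb' := hbd X
      have hcard := cut_card_split G F X
      have hqX := hq X
      rw [abs_le] at hm hb'
      by_cases hcase : (G.cut X ∩ F).card < 2 * crossing a b X
      · by_cases hcase' : 5 * (G.cut X ∩ F).card < 2 * (G.cut X).card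
        · have := hqX hcase hcase'
          omega
        · omega
      · omega)
  refine ⟨φ₂, φ₄, ⟨⟨fun e => ?_, G.isFlow_of_net h22⟩, ⟨fun e => ?_, G.isFlow_of_net h42⟩,
    fun e he => ?_⟩, fun e => ?_⟩
  · by_cases he : e ∈ F
    · rcases (h21 e).1 he with h | h <;> rw [h] <;> simp
    · rw [(h21 e).2 he]; simp
  · have h1 := h41 e
    rw [abs_le]
    push_cast
    split_ifs at h1 <;> constructor <;> omega
  · have he' : e ∉ F := by
      intro heF
      rcases (h21 e).1 heF with h | h <;> rw [h] at he <;> simp at he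
    have h1 := h41 e
    rw [if_neg he', if_neg he'] at h1
    rw [le_abs]
    split_ifs at h1
    · left; exact h1.1
    · right; omega
  · constructor
    · intro h
      by_contra he
      exact h ((h21 e).2 he)
    · intro he
      rcases (h21 e).1 he with h | h <;> rw [h] <;> simp

/-- the edges of odd value of an integer flow form an even set -/
lemma even_odd (G : OrGraph V E) (ψ : E → ℤ) (hψ : G.IsFlow ψ) (v : V) :
    Even (G.deg (univ.filter (fun g => ((ψ g : ℤ) : ZMod 2) ≠ 0)) v) := by
  have h1 := congrArg (fun z : ℤ => (z : ZMod 2)) (hψ v)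
  simp only [Int.cast_sum] at h1
  rw [sum_eq_card, sum_eq_card] at h1
  have h2 : ∀ k : E → V, (univ.filter (fun g => k g = v)).filter
      (fun g => ((ψ g : ℤ) : ZMod 2) ≠ 0) =
      (univ.filter (fun g => ((ψ g : ℤ) : ZMod 2) ≠ 0)).filter (fun g => k g = v) := by
    intro k
    rw [Finset.filter_filter, Finset.filter_filter]
    refine Finset.filter_congr fun g _ => ?_
    exact and_comm
  rw [h2, h2] at h1
  unfold OrGraph.deg
  rw [← ZMod.natCast_eq_zero_iff_even]
  push_cast
  rw [h1]
  exact CharTwo.add_self_eq_zero _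

lemma cast_ne (z : ℤ) : ((z : ℤ) : ZMod 2) ≠ 0 ↔ ¬ (2 : ℤ) ∣ z := by
  rw [Ne, ZMod.intCast_zmod_eq_zero_iff_dvd]
  rfl

/-- **Main theorem.** -/
theorem main (G : OrGraph V E) (a b : T → V) (ψ : E ⊕ T → ℤ)
    (hψ : (addEdges G a b).IsKFlow 4 ψ) (hE : ∀ e, ψ (Sum.inl e) ≠ 0)
    (hT : ∀ i, Even (ψ (Sum.inr i)))
    (hq : ∀ X : Finset V,
      ((G.cut X).filter (fun e => Odd (ψ (Sum.inl e)))).card < 2 * crossing a b X →
      5 * ((G.cut X).filter (fun e => Odd (ψ (Sum.inl e)))).card < 2 * (G.cut X).card →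
      5 * crossing a b X ≤ (G.cut X).card + 1) :
    ∃ φ₂ φ₄ : E → ℤ, G.IsHalfFlowPair φ₂ φ₄ ∧ ∀ e, φ₂ e ≠ 0 ↔ Odd (ψ (Sum.inl e)) := by
  classical
  set G' := addEdges G a b with hG'
  set A : Finset (E ⊕ T) := univ.filter (fun g => ((ψ g : ℤ) : ZMod 2) ≠ 0) with hAdef
  have hA : ∀ v, Even (G'.deg A v) := even_odd G' ψ hψ.2
  set F : Finset E := univ.filter (fun e => Odd (ψ (Sum.inl e))) with hFdef
  have hAF : A = F.image Sum.inl := by
    ext g
    cases g with
    | inl e =>
      simp only [hAdef, hFdef, Finset.mem_filter, Finset.mem_univ, true_and, Finset.mem_image,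
        Sum.inl.injEq, exists_eq_right]
      rw [cast_ne, ← Int.not_even_iff_odd, even_iff_two_dvd]
    | inr i =>
      simp only [hAdef, hFdef, Finset.mem_filter, Finset.mem_univ, true_and, Finset.mem_image,
        reduceCtorEq, and_false, exists_false, iff_false]
      rw [cast_ne, not_not]
      exact (hT i).two_dvd
  have hF : ∀ v, Even (G.deg F v) := by
    intro v
    have h1 := hA v
    rw [hAF] at h1
    unfold OrGraph.deg at h1 ⊢
    rw [Finset.filter_image, Finset.filter_image,
      Finset.card_image_of_injective _ Sum.inl_injective,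
      Finset.card_image_of_injective _ Sum.inl_injective] at h1
    exact h1
  obtain ⟨κ₀, hκ1, hκ2⟩ := eulerian G'.t G'.h A hA
  have hpar : ∀ g, (2 : ℤ) ∣ ψ g - κ₀ g := by
    intro g
    by_cases hg : g ∈ A
    · have h1 : ((ψ g : ℤ) : ZMod 2) ≠ 0 := (Finset.mem_filter.1 hg).2
      have h2 := (cast_ne _).1 h1
      rcases (hκ1 g).1 hg with h | h <;> rw [h] <;> omega
    · have h1 : (2 : ℤ) ∣ ψ g := by
        by_contra h
        exact hg (Finset.mem_filter.2 ⟨mem_univ _, (cast_ne _).2 h⟩)
      rw [(hκ1 g).2 hg]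
      omega
  choose θ hθ using hpar
  have hθf : G'.IsFlow θ := by
    intro v
    have h1 := hψ.2 v
    have h2 := hκ2 v
    unfold net at h2
    have h4 : ∀ s : Finset (E ⊕ T), 2 * ∑ g ∈ s, θ g = ∑ g ∈ s, ψ g - ∑ g ∈ s, κ₀ g := by
      intro s
      rw [Finset.mul_sum, ← Finset.sum_sub_distrib]
      exact Finset.sum_congr rfl fun g _ => (hθ g).symm
    have h5 := h4 (univ.filter (fun g => G'.t g = v))
    have h6 := h4 (univ.filter (fun g => G'.h g = v))
    linarith
  obtain ⟨κ, hk1, hk2⟩ := eulerian G'.t G'.h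
    (univ.filter (fun g => ((θ g : ℤ) : ZMod 2) ≠ 0)) (even_odd G' θ hθf)
  obtain ⟨φ₂, φ₄, h, hs⟩ := core G a b F hF κ
    (by
      intro g
      by_cases hg : g ∈ univ.filter (fun g => ((θ g : ℤ) : ZMod 2) ≠ 0)
      · rcases (hk1 g).1 hg with h | h
        · left; exact h
        · right; left; exact h
      · right; right; exact (hk1 g).2 hg)
    (by
      intro e he
      have he1 : ¬ Odd (ψ (Sum.inl e)) := by
        intro h
        exact he (Finset.mem_filter.2 ⟨mem_univ _, h⟩)
      rw [Int.not_odd_iff_even] at he1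
      have he2 := he1.two_dvd
      have hA' : Sum.inl e ∉ A := by
        intro h
        exact (cast_ne _).1 (Finset.mem_filter.1 h).2 he2
      have h1 := hθ (Sum.inl e)
      rw [(hκ1 _).2 hA'] at h1
      have h2 := hψ.1 (Sum.inl e)
      have h3 := hE e
      push_cast at h2
      rw [abs_le] at h2
      have h4 : Sum.inl e ∈ univ.filter (fun g => ((θ g : ℤ) : ZMod 2) ≠ 0) := by
        refine Finset.mem_filter.2 ⟨mem_univ _, (cast_ne _).2 ?_⟩
        omega
      rcases (hk1 _).1 h4 with h | h <;> rw [h] <;> decide)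
    hk2
    (by
      intro X hX hX'
      have h1 : (G.cut X).filter (fun e => Odd (ψ (Sum.inl e))) = G.cut X ∩ F := by
        ext e
        simp [hFdef]
      exact hq X (by rw [h1]; exact hX) (by rw [h1]; exact hX'))
  refine ⟨φ₂, φ₄, h, fun e => (hs e).trans ?_⟩
  simp [hFdef]

end Pool.Agent.TH399.HP2
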